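import Mathlib

set_option autoImplicit false
set_option maxRecDepth 100000
set_option linter.unusedSimpArgs false

namespace Pool.Agent.Results.MP_9610b2_co.No

section Defs
variable {V E : Type} (s t : E → V)

/-- Distinct edges sharing an end vertex (edge `e` has ends `s e` and `t e`). -/
def Adjacent (e f : E) : Prop :=
  e ≠ f ∧ ∃ v, (s e = v ∨ t e = v) ∧ (s f = v ∨ t f = v)

/-- `u` and `v` are joined by a path using no edge of `S`. -/
def Conn (S : Set E) (u v : V) : Prop :=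
  Relation.ReflTransGen (fun x y => ∃ e, e ∉ S ∧ ((s e = x ∧ t e = y) ∨ (s e = y ∧ t e = x))) u v

/-- Deleting the edges of `S` increases the number of components. -/
def Disconnects (S : Set E) : Prop := ∃ u v, Conn s t ∅ u v ∧ ¬ Conn s t S u v

/-- Bridgeless, and no 2-edge-cut consists of two edges with a common end vertex. -/
def Admissible : Prop :=
  (∀ e, ¬ Disconnects s t {e}) ∧ ∀ e f, Adjacent s t e f → ¬ Disconnects s t {e, f}

variable [Fintype E] [DecidableEq V]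

/-- The degree, parallel edges counted with multiplicity. -/
def deg (v : V) : ℕ :=
  (Finset.univ.filter (fun e => s e = v)).card + (Finset.univ.filter (fun e => t e = v)).card

/-- A rich `k`-flow: an orientation `o` (edge `e` goes from `s e` to `t e` iff `o e`) and integer
values with inflow = outflow at each vertex, `0 < |φ e| < k`, and different absolute values on
adjacent edges. -/
def HasRichFlow (k : ℤ) : Prop :=
  ∃ (o : E → Bool) (φ : E → ℤ),
    (∀ v, ∑ e ∈ Finset.univ.filter (fun e => (if o e then t e else s e) = v), φ e =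
      ∑ e ∈ Finset.univ.filter (fun e => (if o e then s e else t e) = v), φ e) ∧
    (∀ e, φ e ≠ 0 ∧ |φ e| < k) ∧ ∀ e f, Adjacent s t e f → |φ e| ≠ |φ f|

end Defs

def sN (e : ℕ) : ℕ :=
  if e < 3 then 0 else
    let j := (e - 3) / 8
    let r := (e - 3) % 8
    if r = 0 then (if j < 2 then 1 else 2) else if r = 1 then 4 + 3 * j
    else if r < 4 then 3 + 3 * j else if r < 6 then 4 + 3 * j else 5 + 3 * j

def tN (e : ℕ) : ℕ :=
  if e < 3 then 1 else
    let j := (e - 3) / 8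
    let r := (e - 3) % 8
    if r = 0 then 3 + 3 * j else if r = 1 then (if j < 2 then 2 else 0)
    else if r < 4 then 4 + 3 * j else if r < 6 then 5 + 3 * j else 3 + 3 * j

def s0 (e : Fin 35) : Fin 15 := Fin.ofNat 15 (sN e.val)
def t0 (e : Fin 35) : Fin 15 := Fin.ofNat 15 (tN e.val)

def grow (e f : Fin 35) (R : ℕ) (g : Fin 35) : ℕ :=
  if g ≠ e ∧ g ≠ f ∧ (R.testBit (s0 g).val = true ∨ R.testBit (t0 g).val = true) then
    R ||| 2 ^ (s0 g).val ||| 2 ^ (t0 g).val else R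

def EL : List (Fin 35) := List.finRange 35 ++ List.finRange 35 ++ List.finRange 35

theorem conn_symm (S : Set (Fin 35)) (u v : Fin 15) (h : Conn s0 t0 S u v) : Conn s0 t0 S v u := by
  induction h with
  | refl => exact Relation.ReflTransGen.refl
  | tail _ h2 ih =>
    obtain ⟨e, he, h⟩ := h2
    exact Relation.ReflTransGen.head ⟨e, he, h.symm⟩ ih

theorem grow_ok (e f : Fin 35) (L : List (Fin 35)) : ∀ R : ℕ,
    (∀ v : Fin 15, R.testBit v.val = true → Conn s0 t0 {e, f} 0 v) →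
    ∀ v : Fin 15, (L.foldl (grow e f) R).testBit v.val = true → Conn s0 t0 {e, f} 0 v := by
  induction L with
  | nil => intro R h; exact h
  | cons g L ih =>
    intro R h
    refine ih _ ?_
    intro v hv
    unfold grow at hv
    split_ifs at hv with c
    · obtain ⟨c1, c2, c3⟩ := c
      have hg : g ∉ ({e, f} : Set (Fin 35)) := by simp [c1, c2]
      have both : Conn s0 t0 {e, f} 0 (s0 g) ∧ Conn s0 t0 {e, f} 0 (t0 g) := by
        rcases c3 with c3 | c3
        · exact ⟨h _ c3, (h _ c3).tail ⟨g, hg, Or.inl ⟨rfl, rfl⟩⟩⟩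
        · exact ⟨(h _ c3).tail ⟨g, hg, Or.inr ⟨rfl, rfl⟩⟩, h _ c3⟩
      simp only [Nat.testBit_or, Nat.testBit_two_pow, Bool.or_eq_true, decide_eq_true_eq] at hv
      rcases hv with (hv | hv) | hv
      · exact h v hv
      · rw [← Fin.ext hv]; exact both.1
      · rw [← Fin.ext hv]; exact both.2
    · exact h v hv

theorem allconn (e f : Fin 35)
    (h : s0 e = s0 f ∨ s0 e = t0 f ∨ t0 e = s0 f ∨ t0 e = t0 f) (u v : Fin 15) :
    Conn s0 t0 {e, f} u v := by
  have k : ∀ e f : Fin 35, (s0 e = s0 f ∨ s0 e = t0 f ∨ t0 e = s0 f ∨ t0 e = t0 f) →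
      EL.foldl (grow e f) 1 = 2 ^ 15 - 1 := by decide +kernel
  have a : ∀ v : Fin 15, Conn s0 t0 {e, f} 0 v := by
    intro v
    refine grow_ok e f EL 1 ?_ v ?_
    · intro w hw
      have : ∀ w : Fin 15, Nat.testBit 1 w.val = true → w = 0 := by decide
      rw [this w hw]
      exact Relation.ReflTransGen.refl
    · rw [k e f h]
      revert v
      decide
  exact (conn_symm _ _ _ (a u)).trans (a v)

def L : List ℤ := [1, 2, 3, 4, 5, 6, 7, -1, -2, -3, -4, -5, -6, -7]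

theorem memL (x : ℤ) (h : x ≠ 0 ∧ |x| < 8) : x ∈ L := by
  obtain ⟨h1, h2⟩ := h
  rw [abs_lt] at h2
  obtain ⟨h2, h3⟩ := h2
  interval_cases x <;> first | decide | exact absurd rfl h1

def fr (M : ℕ) (x : ℤ) : Bool := Nat.ble x.natAbs 7 && !(M.testBit x.natAbs)

def chk : Bool :=
  L.all fun a => L.all fun b => !(fr (1 ||| 2 ^ a.natAbs) b) || L.all fun c =>
    !(fr (1 ||| 2 ^ a.natAbs ||| 2 ^ b.natAbs) c) ||
    (!(fr (1 ||| 2 ^ a.natAbs ||| 2 ^ b.natAbs ||| 2 ^ c.natAbs) (a + b - c)) ||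
    ((1 ||| 2 ^ a.natAbs ||| 2 ^ b.natAbs ||| 2 ^ c.natAbs ||| 2 ^ (a + b - c).natAbs).testBit 5 ||
    L.all fun x =>
    !(fr (1 ||| 2 ^ a.natAbs ||| 2 ^ b.natAbs ||| 2 ^ c.natAbs ||| 2 ^ (a + b - c).natAbs) x) ||
    L.all fun y =>
    !(fr (1 ||| 2 ^ a.natAbs ||| 2 ^ b.natAbs ||| 2 ^ c.natAbs ||| 2 ^ (a + b - c).natAbs |||
      2 ^ x.natAbs) y) ||
    !(fr (1 ||| 2 ^ a.natAbs ||| 2 ^ b.natAbs ||| 2 ^ c.natAbs ||| 2 ^ (a + b - c).natAbs |||
      2 ^ x.natAbs ||| 2 ^ y.natAbs) (a + b - x - y))))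

theorem chk_ok : chk = true := by decide +kernel

theorem tri (a b c d x y z : ℤ) (ha : a ∈ L) (hb : b ∈ L) (hc : c ∈ L) (hd : d ∈ L) (hx : x ∈ L)
    (hy : y ∈ L) (hz : z ∈ L) (e1 : a + b = c + d) (e2 : a + b = x + y + z)
    (h : [a.natAbs, b.natAbs, c.natAbs, d.natAbs, x.natAbs, y.natAbs, z.natAbs].Nodup) :
    a.natAbs = 5 ∨ b.natAbs = 5 ∨ c.natAbs = 5 ∨ d.natAbs = 5 := by
  have e3 : a + b - c = d := by omega
  have e4 : a + b - x - y = z := by omega
  have bd : ∀ w ∈ L, w.natAbs ≤ 7 ∧ w.natAbs ≠ 0 := by decide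
  have k := chk_ok
  simp only [chk, List.all_eq_true, Bool.or_eq_true, Bool.not_eq_true', ← Bool.not_eq_true] at k
  simp only [List.nodup_cons, List.mem_cons, List.not_mem_nil, or_false, not_or] at h
  rcases h with ⟨⟨_, _, _, _, _, _⟩, ⟨_, _, _, _, _⟩, ⟨_, _, _, _⟩, ⟨_, _, _⟩, ⟨_, _⟩, _, _⟩
  have one : ∀ n, n ≠ 0 → Nat.testBit 1 n = false := by
    intro n hn
    rw [show 1 = 2 ^ 0 from rfl, Nat.testBit_two_pow]
    simp [hn.symm]
  have k1 := (k a ha b hb).resolve_left (by simp [fr, Nat.testBit_two_pow, bd, one, *])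
  have k2 := (k1 c hc).resolve_left (by simp [fr, Nat.testBit_two_pow, bd, one, *])
  rw [e3] at k2
  have k3 := k2.resolve_left (by simp [fr, Nat.testBit_two_pow, bd, one, *])
  rcases k3 with k3 | k3
  · simpa [Nat.testBit_two_pow, one, or_assoc] using k3
  have k4 := (k3 x hx).resolve_left (by simp [fr, Nat.testBit_two_pow, bd, one, *])
  have k5 := (k4 y hy).resolve_left (by simp [fr, Nat.testBit_two_pow, bd, one, *])
  rw [e4] at k5
  exact absurd (by simp [fr, Nat.testBit_two_pow, bd, one, *]) k5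

theorem tri' (a b c d x y z : ℤ) (ha : a ∈ L) (hb : b ∈ L) (hc : c ∈ L) (hd : d ∈ L) (hx : x ∈ L)
    (hy : y ∈ L) (hz : -z ∈ L) (e1 : a + b = c + d) (e2 : a + b + z = x + y)
    (h : [a.natAbs, b.natAbs, c.natAbs, d.natAbs, x.natAbs, y.natAbs, z.natAbs].Nodup) :
    z.natAbs ≠ 5 := by
  have := tri a b c d x y (-z) ha hb hc hd hx hy hz e1 (by omega) (by rwa [Int.natAbs_neg])
  simp only [List.nodup_cons, List.mem_cons, List.not_mem_nil, or_false, not_or] at h
  rcases h with ⟨⟨_, _, _, _, _, p1⟩, ⟨_, _, _, _, p2⟩, ⟨_, _, _, p3⟩, ⟨_, _, p4⟩, _⟩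
  intro e
  rw [e] at p1 p2 p3 p4
  tauto

theorem noflow : ¬ HasRichFlow s0 t0 8 := by
  rintro ⟨o, φ, h1, h2, h3⟩
  obtain ⟨ψ, hψ⟩ : ∃ ψ : Fin 35 → ℤ, ∀ e, ψ e = if o e then φ e else -φ e := ⟨_, fun _ => rfl⟩
  have ab : ∀ e, |ψ e| = |φ e| := by
    intro e; rw [hψ]; split_ifs
    · rfl
    · exact abs_neg _
  have mL : ∀ e, ψ e ∈ L := fun e => memL _
    ⟨fun h => (h2 e).1 (by have := ab e; rw [h, abs_zero] at this; exact abs_eq_zero.1 this.symm),
      by rw [ab]; exact (h2 e).2⟩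
  have mL' : ∀ e, -ψ e ∈ L := by
    have : ∀ x ∈ L, -x ∈ L := by decide
    exact fun e => this _ (mL e)
  have ne : ∀ e f : Fin 35, (e ≠ f ∧ (s0 e = s0 f ∨ s0 e = t0 f ∨ t0 e = s0 f ∨ t0 e = t0 f)) →
      (ψ e).natAbs ≠ (ψ f).natAbs := by
    intro e f h k
    refine h3 e f ⟨h.1, ?_⟩ (by rw [← ab, ← ab, Int.abs_eq_natAbs, Int.abs_eq_natAbs, k])
    rcases h.2 with h | h | h | h
    · exact ⟨_, Or.inl h, Or.inl rfl⟩
    · exact ⟨_, Or.inl h, Or.inr rfl⟩
    · exact ⟨_, Or.inr h, Or.inl rfl⟩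
    · exact ⟨_, Or.inr h, Or.inr rfl⟩
  have cons : ∀ v, ∑ e ∈ Finset.univ.filter (fun e => t0 e = v), ψ e =
      ∑ e ∈ Finset.univ.filter (fun e => s0 e = v), ψ e := by
    intro v
    have k := h1 v
    simp only [Finset.sum_filter] at k ⊢
    rw [← sub_eq_zero, ← Finset.sum_sub_distrib] at k ⊢
    refine Eq.trans (Finset.sum_congr rfl fun e _ => ?_) k
    rw [hψ]
    cases o e
    · simp only [Bool.false_eq_true, if_false]
      split_ifs <;> ring
    · simp only [if_true]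
  have c0 : ψ 20 + ψ 28 = ψ 0 + ψ 1 + ψ 2 := by
    have k := cons 0
    rw [show Finset.univ.filter (fun e => t0 e = 0) = {20, 28} by decide,
      show Finset.univ.filter (fun e => s0 e = 0) = {0, 1, 2} by decide] at k
    simpa [add_assoc] using k
  have c1 : ψ 0 + ψ 1 + ψ 2 = ψ 3 + ψ 11 := by
    have k := cons 1
    rw [show Finset.univ.filter (fun e => t0 e = 1) = {0, 1, 2} by decide,
      show Finset.univ.filter (fun e => s0 e = 1) = {3, 11} by decide] at k
    simpa [add_assoc] using k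
  have c2 : ψ 4 + ψ 12 = ψ 19 + ψ 27 := by
    have k := cons 2
    rw [show Finset.univ.filter (fun e => t0 e = 2) = {4, 12} by decide,
      show Finset.univ.filter (fun e => s0 e = 2) = {19, 27} by decide] at k
    simpa [add_assoc] using k
  have c3 : ψ 3 + ψ 9 + ψ 10 = ψ 5 + ψ 6 := by
    have k := cons 3
    rw [show Finset.univ.filter (fun e => t0 e = 3) = {3, 9, 10} by decide,
      show Finset.univ.filter (fun e => s0 e = 3) = {5, 6} by decide] at k
    simpa [add_assoc] using k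
  have c4 : ψ 5 + ψ 6 = ψ 4 + ψ 7 + ψ 8 := by
    have k := cons 4
    rw [show Finset.univ.filter (fun e => t0 e = 4) = {5, 6} by decide,
      show Finset.univ.filter (fun e => s0 e = 4) = {4, 7, 8} by decide] at k
    simpa [add_assoc] using k
  have c5 : ψ 7 + ψ 8 = ψ 9 + ψ 10 := by
    have k := cons 5
    rw [show Finset.univ.filter (fun e => t0 e = 5) = {7, 8} by decide,
      show Finset.univ.filter (fun e => s0 e = 5) = {9, 10} by decide] at k
    simpa [add_assoc] using k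
  have c6 : ψ 11 + ψ 17 + ψ 18 = ψ 13 + ψ 14 := by
    have k := cons 6
    rw [show Finset.univ.filter (fun e => t0 e = 6) = {11, 17, 18} by decide,
      show Finset.univ.filter (fun e => s0 e = 6) = {13, 14} by decide] at k
    simpa [add_assoc] using k
  have c7 : ψ 13 + ψ 14 = ψ 12 + ψ 15 + ψ 16 := by
    have k := cons 7
    rw [show Finset.univ.filter (fun e => t0 e = 7) = {13, 14} by decide,
      show Finset.univ.filter (fun e => s0 e = 7) = {12, 15, 16} by decide] at k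
    simpa [add_assoc] using k
  have c8 : ψ 15 + ψ 16 = ψ 17 + ψ 18 := by
    have k := cons 8
    rw [show Finset.univ.filter (fun e => t0 e = 8) = {15, 16} by decide,
      show Finset.univ.filter (fun e => s0 e = 8) = {17, 18} by decide] at k
    simpa [add_assoc] using k
  have c9 : ψ 19 + ψ 25 + ψ 26 = ψ 21 + ψ 22 := by
    have k := cons 9
    rw [show Finset.univ.filter (fun e => t0 e = 9) = {19, 25, 26} by decide,
      show Finset.univ.filter (fun e => s0 e = 9) = {21, 22} by decide] at k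
    simpa [add_assoc] using k
  have c10 : ψ 21 + ψ 22 = ψ 20 + ψ 23 + ψ 24 := by
    have k := cons 10
    rw [show Finset.univ.filter (fun e => t0 e = 10) = {21, 22} by decide,
      show Finset.univ.filter (fun e => s0 e = 10) = {20, 23, 24} by decide] at k
    simpa [add_assoc] using k
  have c11 : ψ 23 + ψ 24 = ψ 25 + ψ 26 := by
    have k := cons 11
    rw [show Finset.univ.filter (fun e => t0 e = 11) = {23, 24} by decide,
      show Finset.univ.filter (fun e => s0 e = 11) = {25, 26} by decide] at k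
    simpa [add_assoc] using k
  have c12 : ψ 27 + ψ 33 + ψ 34 = ψ 29 + ψ 30 := by
    have k := cons 12
    rw [show Finset.univ.filter (fun e => t0 e = 12) = {27, 33, 34} by decide,
      show Finset.univ.filter (fun e => s0 e = 12) = {29, 30} by decide] at k
    simpa [add_assoc] using k
  have c13 : ψ 29 + ψ 30 = ψ 28 + ψ 31 + ψ 32 := by
    have k := cons 13
    rw [show Finset.univ.filter (fun e => t0 e = 13) = {29, 30} by decide,
      show Finset.univ.filter (fun e => s0 e = 13) = {28, 31, 32} by decide] at k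
    simpa [add_assoc] using k
  have c14 : ψ 31 + ψ 32 = ψ 33 + ψ 34 := by
    have k := cons 14
    rw [show Finset.univ.filter (fun e => t0 e = 14) = {31, 32} by decide,
      show Finset.univ.filter (fun e => s0 e = 14) = {33, 34} by decide] at k
    simpa [add_assoc] using k
  have e0 : ψ 4 = ψ 3 := by omega
  have g0 : (ψ 3).natAbs ≠ 5 := by
    refine tri' (ψ 9) (ψ 10) (ψ 7) (ψ 8) (ψ 5) (ψ 6) (ψ 3) (mL _) (mL _) (mL _)
      (mL _) (mL _) (mL _) (mL' _) (by omega) (by omega) ?_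
    have q1 := ne 7 4 (by decide)
    have q2 := ne 8 4 (by decide)
    rw [e0] at q1 q2
    simp only [List.nodup_cons, List.mem_cons, List.not_mem_nil, or_false, not_or,
      not_false_eq_true, List.nodup_nil, and_true]
    refine ⟨⟨?_, ?_, ?_, ?_, ?_, ?_⟩, ⟨?_, ?_, ?_, ?_, ?_⟩, ⟨?_, ?_, ?_, q1⟩, ⟨?_, ?_, q2⟩,
      ⟨?_, ?_⟩, ?_⟩ <;> exact ne _ _ (by decide)
  have e1 : ψ 12 = ψ 11 := by omega
  have g1 : (ψ 11).natAbs ≠ 5 := by
    refine tri' (ψ 17) (ψ 18) (ψ 15) (ψ 16) (ψ 13) (ψ 14) (ψ 11) (mL _) (mL _) (mL _)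
      (mL _) (mL _) (mL _) (mL' _) (by omega) (by omega) ?_
    have q1 := ne 15 12 (by decide)
    have q2 := ne 16 12 (by decide)
    rw [e1] at q1 q2
    simp only [List.nodup_cons, List.mem_cons, List.not_mem_nil, or_false, not_or,
      not_false_eq_true, List.nodup_nil, and_true]
    refine ⟨⟨?_, ?_, ?_, ?_, ?_, ?_⟩, ⟨?_, ?_, ?_, ?_, ?_⟩, ⟨?_, ?_, ?_, q1⟩, ⟨?_, ?_, q2⟩,
      ⟨?_, ?_⟩, ?_⟩ <;> exact ne _ _ (by decide)
  have e2 : ψ 20 = ψ 19 := by omega
  have g2 : (ψ 19).natAbs ≠ 5 := by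
    refine tri' (ψ 25) (ψ 26) (ψ 23) (ψ 24) (ψ 21) (ψ 22) (ψ 19) (mL _) (mL _) (mL _)
      (mL _) (mL _) (mL _) (mL' _) (by omega) (by omega) ?_
    have q1 := ne 23 20 (by decide)
    have q2 := ne 24 20 (by decide)
    rw [e2] at q1 q2
    simp only [List.nodup_cons, List.mem_cons, List.not_mem_nil, or_false, not_or,
      not_false_eq_true, List.nodup_nil, and_true]
    refine ⟨⟨?_, ?_, ?_, ?_, ?_, ?_⟩, ⟨?_, ?_, ?_, ?_, ?_⟩, ⟨?_, ?_, ?_, q1⟩, ⟨?_, ?_, q2⟩,
      ⟨?_, ?_⟩, ?_⟩ <;> exact ne _ _ (by decide)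
  have e3 : ψ 28 = ψ 27 := by omega
  have g3 : (ψ 27).natAbs ≠ 5 := by
    refine tri' (ψ 33) (ψ 34) (ψ 31) (ψ 32) (ψ 29) (ψ 30) (ψ 27) (mL _) (mL _) (mL _)
      (mL _) (mL _) (mL _) (mL' _) (by omega) (by omega) ?_
    have q1 := ne 31 28 (by decide)
    have q2 := ne 32 28 (by decide)
    rw [e3] at q1 q2
    simp only [List.nodup_cons, List.mem_cons, List.not_mem_nil, or_false, not_or,
      not_false_eq_true, List.nodup_nil, and_true]
    refine ⟨⟨?_, ?_, ?_, ?_, ?_, ?_⟩, ⟨?_, ?_, ?_, ?_, ?_⟩, ⟨?_, ?_, ?_, q1⟩, ⟨?_, ?_, q2⟩,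
      ⟨?_, ?_⟩, ?_⟩ <;> exact ne _ _ (by decide)
  have fin := tri (ψ 3) (ψ 11) (ψ 19) (ψ 27) (ψ 0) (ψ 1) (ψ 2) (mL _) (mL _) (mL _) (mL _)
    (mL _) (mL _) (mL _) (by omega) (by omega) (by
      have q1 := ne 4 19 (by decide)
      have q2 := ne 4 27 (by decide)
      have q3 := ne 12 19 (by decide)
      have q4 := ne 12 27 (by decide)
      have r1 := ne 20 0 (by decide)
      have r2 := ne 20 1 (by decide)
      have r3 := ne 20 2 (by decide)
      have r4 := ne 28 0 (by decide)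
      have r5 := ne 28 1 (by decide)
      have r6 := ne 28 2 (by decide)
      rw [e0] at q1 q2
      rw [e1] at q3 q4
      rw [e2] at r1 r2 r3
      rw [e3] at r4 r5 r6
      simp only [List.nodup_cons, List.mem_cons, List.not_mem_nil, or_false, not_or,
        not_false_eq_true, List.nodup_nil, and_true]
      refine ⟨⟨?_, q1, q2, ?_, ?_, ?_⟩, ⟨q3, q4, ?_, ?_, ?_⟩, ⟨?_, r1, r2, r3⟩, ⟨r4, r5, r6⟩,
        ⟨?_, ?_⟩, ?_⟩ <;> exact ne _ _ (by decide))
  tauto

/-- A connected loopless rich-flow-admissible multigraph with maximum degree `Δ ≥ 5` and no rich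
`⌊1.5 Δ + 1⌋`-flow. -/
theorem result : ∃ (n m : ℕ) (s t : Fin m → Fin n) (Δ : ℕ),
    (∀ e, s e ≠ t e) ∧ (∀ u v, Conn s t ∅ u v) ∧ Admissible s t ∧
    (∀ v, deg s t v ≤ Δ) ∧ (∃ v, deg s t v = Δ) ∧ 5 ≤ Δ ∧
    ¬ HasRichFlow s t ⌊(3 / 2 : ℚ) * Δ + 1⌋ := by
  have mono : ∀ u v, Conn s0 t0 ∅ u v := by
    intro u v
    refine Relation.ReflTransGen.mono ?_ _ _ (allconn 0 0 (Or.inl rfl) u v)
    rintro x y ⟨e, -, h⟩
    exact ⟨e, fun h => h, h⟩
  refine ⟨15, 35, s0, t0, 5, by decide, mono, ⟨?_, ?_⟩, by decide, ⟨0, by decide⟩, le_rfl, ?_⟩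
  · rintro e ⟨u, v, -, h⟩
    have := allconn e e (Or.inl rfl) u v
    rw [Set.pair_eq_singleton] at this
    exact h this
  · rintro e f ⟨-, w, h1, h2⟩ ⟨u, v, -, h⟩
    refine h (allconn e f ?_ u v)
    rcases h1 with h1 | h1 <;> rcases h2 with h2 | h2 <;> rw [← h2] at h1 <;> simp [h1]
  · have : ⌊(3 / 2 : ℚ) * ((5 : ℕ) : ℚ) + 1⌋ = 8 := by
      rw [Int.floor_eq_iff]; norm_num
    rw [this]
    exact noflow

end Pool.Agent.Results.MP_9610b2_co.No
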